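import Pool.Agent.Y857.HT.Final

/-!
# The Hanani-Tutte criterion for simultaneous embedding fails for every forest with two vertices of
degree at least four in one component

The definitions (`IsArc`, `IsProperCrossing`, `Drawing`, `Drawing.crossings`, `Indep`,
`Drawing.iocr`, `Drawing.restrict`, `siocr`, `Drawing.Planar`, `AdmitsSEFE`) are in
`Pool.Agent.TH510.Sefe.Defs`.

Let `c` and `d` be the two vertices, `a 0, a 1, a 2` three neighbours of `c` and `b 0, b 1, b 2`
three neighbours of `d` outside the path from `c` to `d`. The first graph has the three further
edges `a i, b i`, the second one the three further edges `a i, b (i + 1)` (indices modulo 3). In a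
simultaneous embedding the cyclic order of the four branches at `c` would be invariant under the
rotation of three of them. The drawing is built from polygonal drawings with 8, 9 or 10 vertices by
subdividing the path from `c` to `d` and by adding leaves.
-/

set_option autoImplicit false

namespace Pool.Agent.Results.MP_3c943f_co.SharedForests

open Pool.Agent.TH510.Sefe

/-- Every finite forest `T` (in particular every finite tree) in which some component contains two
vertices of degree at least four is the shared graph of two graphs `G₁`, `G₂` on the same vertices,
each with exactly three edges outside `T`, for which `siocr(G₁, G₂)`, the minimum of `siocr(D)` over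
all drawings `D` of `G₁ ∪ G₂`, is zero, but which admit no simultaneous embedding with fixed
edges. -/
theorem result : ∀ (V : Type) [Finite V] (T : SimpleGraph V), T.IsAcyclic →
    ∀ c d : V, c ≠ d → T.Reachable c d → 4 ≤ (T.neighborSet c).ncard →
      4 ≤ (T.neighborSet d).ncard →
    ∃ G₁ G₂ : SimpleGraph V, G₁ ⊓ G₂ = T ∧
      (G₁.edgeSet \ T.edgeSet).ncard = 3 ∧ (G₂.edgeSet \ T.edgeSet).ncard = 3 ∧
      IsLeast {n : ℕ | ∃ D : Drawing (G₁ ⊔ G₂), siocr D = n} 0 ∧ ¬ AdmitsSEFE G₁ G₂ := by
  intro V _ T hT c d hcd hr hc hd
  exact Pool.Agent.Y857.HT.forest T hT c d hcd hr hc hd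

end Pool.Agent.Results.MP_3c943f_co.SharedForests
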